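import Pool.Agent.Work.MP_4e9880_al.Assemble
import Pool.Agent.Work.MP_4e9880_al.Model

/-!
# A nontrivial finitely presented group isomorphic to its direct square

There is a finite presentation, with finitely many generators and finitely many relators, of a
nontrivial group `G` with `G ≅ G × G`; this group is isomorphic to each of its direct powers `G^m`
with `m ≥ 1`. The group is a Steinberg-type group of rank `5` over a finitely presented
`𝔽₂`-algebra `R` with `R ≅ R × R`.
-/

namespace Pool.Agent.Results.MP_4e9880_al.EqualsAllPowers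

/-- `G^(m+1) ≅ G × G^m`. -/
def powSucc (G : Type) [Group G] (m : ℕ) : (Fin (m + 1) → G) ≃* G × (Fin m → G) where
  toFun f := (f 0, fun i => f i.succ)
  invFun p := Fin.cons p.1 p.2
  left_inv f := by
    funext i
    refine Fin.cases ?_ (fun j => ?_) i
    · rfl
    · rfl
  right_inv p := rfl
  map_mul' f g := rfl

theorem pow_equiv {G : Type} [Group G] (e : G ≃* G × G) (m : ℕ) (hm : 1 ≤ m) :
    Nonempty (G ≃* (Fin m → G)) := by
  induction m, hm using Nat.le_induction with
  | base => exact ⟨(MulEquiv.funUnique (Fin 1) G).symm⟩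
  | succ m _ ih =>
    obtain ⟨f⟩ := ih
    exact ⟨(e.trans ((MulEquiv.refl G).prodCongr f)).trans (powSucc G m).symm⟩

/-- There are a finite number `n` and a finite set `R` of words in the free group of rank `n` such
that the group `G` with `n` generators and the relators `R` is nontrivial and isomorphic to
`G × G`; moreover `G` is isomorphic to `G^m` for every `m ≥ 1`. -/
theorem result :
    ∃ (n : ℕ) (R : Finset (FreeGroup (Fin n))),
      Nontrivial (PresentedGroup (R : Set (FreeGroup (Fin n)))) ∧
      Nonempty (PresentedGroup (R : Set (FreeGroup (Fin n))) ≃*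
        PresentedGroup (R : Set (FreeGroup (Fin n))) ×
        PresentedGroup (R : Set (FreeGroup (Fin n)))) ∧
      ∀ m : ℕ, 1 ≤ m →
        Nonempty (PresentedGroup (R : Set (FreeGroup (Fin n))) ≃*
          (Fin m → PresentedGroup (R : Set (FreeGroup (Fin n))))) := by
  obtain ⟨e0⟩ := Pool.Agent.Work.MP_4e9880_al.ring_square
  obtain ⟨G, hG, hnt, ⟨n, f, hf, R, hR⟩, ⟨e⟩⟩ := Pool.Agent.Work.MP_4e9880_al.main_of_ring _
    Pool.Agent.Work.MP_4e9880_al.rel_finite Pool.Agent.Work.MP_4e9880_al.RR_nontrivial e0
  have E : PresentedGroup (R : Set (FreeGroup (Fin n))) ≃* G :=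
    (QuotientGroup.quotientMulEquivOfEq hR).trans
      (QuotientGroup.quotientKerEquivOfSurjective f hf)
  have e' : PresentedGroup (R : Set (FreeGroup (Fin n))) ≃*
      PresentedGroup (R : Set (FreeGroup (Fin n))) ×
      PresentedGroup (R : Set (FreeGroup (Fin n))) :=
    (E.trans e).trans (E.symm.prodCongr E.symm)
  exact ⟨n, R, E.toEquiv.nontrivial, ⟨e'⟩, fun m hm => pow_equiv e' m hm⟩

end Pool.Agent.Results.MP_4e9880_al.EqualsAllPowers
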